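import Pool.Agent.H59.L.S8.Y506.PV.Stm

/-!
# Project PV, part M4: fourth moments of linear functionals under a log-concave weight
-/

set_option autoImplicit false

namespace Pool.Agent.Y252.PV.M4

open MeasureTheory Set Filter Topology
open scoped ENNReal InnerProductSpace
open Pool.Agent.W695.KH (Eu EU EV VV Sm Pot Uu)
open Pool.Agent.Y506.RG (EW VW Star LC1 GD Adm VW_shift)
open Pool.Agent.Y506.PV

/-- a pointwise bound -/
lemma pt (σ u : ℝ) (hσ : 0 < σ) (hu : 2 * σ ≤ |u|) : ∃ k : ℕ,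
    2 * σ + 4 * σ * k ≤ |u| ∧ u ^ 4 ≤ 1296 * ((k : ℝ) + 1) ^ 4 * σ ^ 4 := by
  have h0 : 0 ≤ (|u| - 2 * σ) / (4 * σ) := div_nonneg (by linarith) (by linarith)
  refine ⟨⌊(|u| - 2 * σ) / (4 * σ)⌋₊, ?_, ?_⟩
  · have h1 := Nat.floor_le h0
    rw [le_div_iff₀ (by linarith)] at h1
    linarith
  · have h1 := Nat.lt_floor_add_one ((|u| - 2 * σ) / (4 * σ))
    rw [div_lt_iff₀ (by linarith)] at h1
    set k : ℝ := (⌊(|u| - 2 * σ) / (4 * σ)⌋₊ : ℝ)
    have hk : 0 ≤ k := Nat.cast_nonneg _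
    have h2 : |u| ≤ 6 * (k + 1) * σ := by nlinarith
    have h3 : |u| ^ 4 ≤ (6 * (k + 1) * σ) ^ 4 := pow_le_pow_left₀ (abs_nonneg _) h2 4
    have h4 : |u| ^ 4 = u ^ 4 := by
      rw [show (4:ℕ) = 2 * 2 by norm_num, pow_mul, sq_abs, pow_mul]
    rw [h4] at h3
    calc u ^ 4 ≤ (6 * (k + 1) * σ) ^ 4 := h3
      _ = _ := by ring

variable {n : ℕ}

lemma meas_in (θ : Eu (Fin n)) : Measurable fun x : Eu (Fin n) => ⟪x, θ⟫_ℝ := by
  fun_prop

lemma int_l {w : Eu (Fin n) → ℝ} (hw : Adm w) (θ : Eu (Fin n)) :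
    Integrable fun x => ⟪x, θ⟫_ℝ * w x := by
  refine hw.of_bd _ (meas_in θ) ‖θ‖ fun x => ?_
  refine (abs_real_inner_le_norm x θ).trans ?_
  nlinarith [norm_nonneg x, norm_nonneg θ, sq_nonneg (‖x‖ - 1), mul_nonneg (norm_nonneg θ)
    (sq_nonneg (‖x‖ - 1)), mul_nonneg (norm_nonneg θ) (norm_nonneg x),
    mul_nonneg (norm_nonneg θ) (sq_nonneg ‖x‖)]

lemma int_l2 {w : Eu (Fin n) → ℝ} (hw : Adm w) (θ : Eu (Fin n)) :
    Integrable fun x => ⟪x, θ⟫_ℝ ^ 2 * w x := by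
  refine hw.of_bd _ ((meas_in θ).pow_const 2) (‖θ‖ ^ 2) fun x => ?_
  rw [abs_pow]
  have h := abs_real_inner_le_norm x θ
  have h2 : |⟪x, θ⟫_ℝ| ^ 2 ≤ (‖x‖ * ‖θ‖) ^ 2 := pow_le_pow_left₀ (abs_nonneg _) h 2
  refine h2.trans ?_
  nlinarith [sq_nonneg ‖θ‖]

lemma int_q {w : Eu (Fin n) → ℝ} (hw : Adm w) (θ : Eu (Fin n)) (a : ℝ) :
    Integrable fun x => (⟪x, θ⟫_ℝ - a) ^ 2 * w x := by
  have h1 := ((int_l2 hw θ).add ((int_l hw θ).const_mul (-(2 * a)))).add (hw.one.const_mul (a ^ 2))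
  refine h1.congr (Eventually.of_forall fun x => ?_)
  simp only [Pi.add_apply]
  ring

/-- Chebyshev's inequality -/
lemma cheb {w : Eu (Fin n) → ℝ} (hw : Adm w) (θ : Eu (Fin n)) (a σ : ℝ) (hσ : 0 < σ)
    (hc : ∫ x, (⟪x, θ⟫_ℝ - a) ^ 2 * w x ≤ σ ^ 2 * ∫ x, w x) (S : Set (Eu (Fin n)))
    (hS : MeasurableSet S) (hSl : ∀ x ∈ S, (2 * σ) ^ 2 ≤ (⟪x, θ⟫_ℝ - a) ^ 2) :
    ∫ x in S, w x ≤ (∫ x, w x) / 4 := by
  have h1 : ∫ x in S, (2 * σ) ^ 2 * w x ≤ ∫ x in S, (⟪x, θ⟫_ℝ - a) ^ 2 * w x := by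
    refine setIntegral_mono_on (hw.one.const_mul _).integrableOn (int_q hw θ a).integrableOn hS ?_
    intro x hx
    exact mul_le_mul_of_nonneg_right (hSl x hx) (hw.nonneg x)
  have h2 : ∫ x in S, (⟪x, θ⟫_ℝ - a) ^ 2 * w x ≤ ∫ x, (⟪x, θ⟫_ℝ - a) ^ 2 * w x :=
    setIntegral_le_integral (int_q hw θ a) (Eventually.of_forall fun x =>
      mul_nonneg (sq_nonneg _) (hw.nonneg x))
  rw [integral_const_mul] at h1
  have h3 : (2 * σ) ^ 2 * ∫ x in S, w x ≤ σ ^ 2 * ∫ x, w x := h1.trans (h2.trans hc)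
  have h4 : 0 < σ ^ 2 := by positivity
  nlinarith

/-- tails -/
lemma tail (h : S_LEV) {w : Eu (Fin n) → ℝ} (hw : Adm w) (hlc : LCn w) (θ : Eu (Fin n))
    (a σ : ℝ) (hσ : 0 < σ)
    (hc : ∫ x, (⟪x, θ⟫_ℝ - a) ^ 2 * w x ≤ σ ^ 2 * ∫ x, w x) (k : ℕ) :
    ∫ x in {x | a + (2 * σ + 4 * σ * k) ≤ ⟪x, θ⟫_ℝ}, w x ≤ (1 / 3) ^ k * ∫ x, w x := by
  have hW := hw.pos
  have hm := meas_in (n := n) θ
  -- the upper tail
  have hup : ∫ x in {x | a + 2 * σ ≤ ⟪x, θ⟫_ℝ}, w x ≤ (∫ x, w x) / 4 := by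
    refine cheb hw θ a σ hσ hc _ (measurableSet_le measurable_const hm) ?_
    intro x hx
    have hx' : a + 2 * σ ≤ ⟪x, θ⟫_ℝ := hx
    exact pow_le_pow_left₀ (by linarith) (by linarith) 2
  -- the lower tail
  have hlo : ∫ x in {x | ⟪x, θ⟫_ℝ < a - 2 * σ}, w x ≤ (∫ x, w x) / 4 := by
    refine cheb hw θ a σ hσ hc _ (measurableSet_lt hm measurable_const) ?_
    intro x hx
    have hx' : ⟪x, θ⟫_ℝ < a - 2 * σ := hx
    have : (2 * σ) ^ 2 ≤ (a - ⟪x, θ⟫_ℝ) ^ 2 := pow_le_pow_left₀ (by linarith) (by linarith) 2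
    calc (2 * σ) ^ 2 ≤ (a - ⟪x, θ⟫_ℝ) ^ 2 := this
      _ = _ := by ring
  have hlo2 : 3 / 4 * ∫ x, w x ≤ ∫ x in {x | a - 2 * σ ≤ ⟪x, θ⟫_ℝ}, w x := by
    have hs : MeasurableSet {x : Eu (Fin n) | a - 2 * σ ≤ ⟪x, θ⟫_ℝ} :=
      measurableSet_le measurable_const hm
    have h1 := integral_add_compl hs hw.one
    have h2 : {x : Eu (Fin n) | a - 2 * σ ≤ ⟪x, θ⟫_ℝ}ᶜ = {x | ⟪x, θ⟫_ℝ < a - 2 * σ} := by
      ext x
      simp only [mem_compl_iff, mem_ofPred_eq, not_le]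
    rw [h2] at h1
    linarith
  rcases Nat.eq_zero_or_pos k with hk | hk
  · subst hk
    have : {x : Eu (Fin n) | a + (2 * σ + 4 * σ * ((0 : ℕ) : ℝ)) ≤ ⟪x, θ⟫_ℝ} =
        {x | a + 2 * σ ≤ ⟪x, θ⟫_ℝ} := by
      ext x
      simp
    rw [this]
    simp only [pow_zero, one_mul]
    linarith
  set J := ∫ x in {x | a + (2 * σ + 4 * σ * k) ≤ ⟪x, θ⟫_ℝ}, w x with hJ
  have hJ0 : 0 ≤ J := integral_nonneg_of_ae (Eventually.of_forall fun x => hw.nonneg x)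
  set W := ∫ x, w x with hWd
  set A := ∫ x in {x | a - 2 * σ ≤ ⟪x, θ⟫_ℝ}, w x with hA
  have hkr : (0 : ℝ) < k := by exact_mod_cast hk
  have hconc : ConcS w (fun x => ⟪x, θ⟫_ℝ) := by
    intro x y t _ _ _ _
    show (1 - t) * ⟪x, θ⟫_ℝ + t * ⟪y, θ⟫_ℝ ≤ ⟪(1 - t) • x + t • y, θ⟫_ℝ
    rw [inner_add_left, real_inner_smul_left, real_inner_smul_left]
  set t : ℝ := 1 / ((k : ℝ) + 1) with ht
  have ht0 : 0 < t := by positivity
  have ht1 : t < 1 := by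
    rw [ht, div_lt_one (by positivity)]
    linarith
  have hl := h n w (fun x => ⟪x, θ⟫_ℝ) hw hlc hm hconc (a - 2 * σ) (a + (2 * σ + 4 * σ * k)) t
    ht0 ht1
  have hmid : (1 - t) * (a - 2 * σ) + t * (a + (2 * σ + 4 * σ * k)) = a + 2 * σ := by
    rw [ht]
    field_simp
    ring
  rw [hmid, ← hJ, ← hA] at hl
  have hl2 := hl.trans hup
  have hA0 : 0 ≤ A := by linarith
  -- raise to the power k + 1
  have hpow : (A ^ (1 - t) * J ^ t) ^ (k + 1) = A ^ k * J := by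
    rw [mul_pow, ← Real.rpow_natCast (A ^ (1 - t)), ← Real.rpow_natCast (J ^ t),
      ← Real.rpow_mul hA0, ← Real.rpow_mul hJ0]
    have e1 : (1 - t) * ((k + 1 : ℕ) : ℝ) = (k : ℝ) := by
      rw [ht]
      push_cast
      field_simp
      ring
    have e2 : t * ((k + 1 : ℕ) : ℝ) = 1 := by
      rw [ht]
      push_cast
      field_simp
    rw [e1, e2, Real.rpow_one, Real.rpow_natCast]
  have h5 : A ^ k * J ≤ (W / 4) ^ (k + 1) := by
    rw [← hpow]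
    exact pow_le_pow_left₀ (mul_nonneg (Real.rpow_nonneg hA0 _) (Real.rpow_nonneg hJ0 _)) hl2 _
  have h6 : (3 / 4 * W) ^ k * J ≤ (W / 4) ^ (k + 1) :=
    (mul_le_mul_of_nonneg_right (pow_le_pow_left₀ (by positivity) hlo2 k) hJ0).trans h5
  have h7 : (3 / 4 * W) ^ k * J ≤ (3 / 4 * W) ^ k * ((1 / 3) ^ k * (W / 4)) := by
    refine h6.trans (le_of_eq ?_)
    rw [← mul_assoc, ← mul_pow, pow_succ]
    congr 2
    ring
  have h8 : 0 < (3 / 4 * W) ^ k := by positivity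
  have h9 := le_of_mul_le_mul_left h7 h8
  refine h9.trans ?_
  refine mul_le_mul_of_nonneg_left ?_ (by positivity)
  linarith

/-- the numbers -/
noncomputable def cf (k : ℕ) : ℝ := 1296 * ((k : ℝ) + 1) ^ 4 * (1 / 3) ^ k

lemma cf_nonneg (k : ℕ) : 0 ≤ cf k := by
  unfold cf
  positivity

lemma cf_sum : Summable cf := by
  have h1 : Summable (fun k : ℕ => (k : ℝ) ^ 4 * (1 / 3 : ℝ) ^ k) :=
    summable_pow_mul_geometric_of_norm_lt_one 4 (by norm_num)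
  have h2 := ((summable_nat_add_iff 1).2 h1).mul_left (1296 * 3)
  refine h2.congr fun k => ?_
  unfold cf
  push_cast
  rw [pow_succ (1 / 3 : ℝ) k]
  ring

/-- the main estimate -/
lemma four (h : S_LEV) {w : Eu (Fin n) → ℝ} (hw : Adm w) (hlc : LCn w) (θ : Eu (Fin n))
    (a σ : ℝ) (hσ : 0 < σ)
    (hc : ∫ x, (⟪x, θ⟫_ℝ - a) ^ 2 * w x ≤ σ ^ 2 * ∫ x, w x) :
    ∫⁻ x, ENNReal.ofReal ((⟪x, θ⟫_ℝ - a) ^ 4 * w x) ≤
      ENNReal.ofReal ((16 + 2 * ∑' k, cf k) * σ ^ 4 * ∫ x, w x) := by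
  have hW := hw.pos
  have hm := meas_in (n := n) θ
  set W := ∫ x, w x with hWd
  set A : ℕ → Set (Eu (Fin n)) := fun k => {x | a + (2 * σ + 4 * σ * k) ≤ ⟪x, θ⟫_ℝ} with hA
  set B : ℕ → Set (Eu (Fin n)) := fun k => {x | -a + (2 * σ + 4 * σ * k) ≤ ⟪x, -θ⟫_ℝ} with hB
  have hAm : ∀ k, MeasurableSet (A k) := fun k => measurableSet_le measurable_const hm
  have hBm : ∀ k, MeasurableSet (B k) := fun k => measurableSet_le measurable_const (meas_in _)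
  have tA : ∀ k, ∫ x in A k, w x ≤ (1 / 3) ^ k * W := fun k => tail h hw hlc θ a σ hσ hc k
  have hc' : ∫ x, (⟪x, -θ⟫_ℝ - -a) ^ 2 * w x ≤ σ ^ 2 * ∫ x, w x := by
    have : ∀ x, (⟪x, -θ⟫_ℝ - -a) ^ 2 * w x = (⟪x, θ⟫_ℝ - a) ^ 2 * w x := by
      intro x
      rw [inner_neg_right]
      ring
    simp only [this]
    exact hc
  have tB : ∀ k, ∫ x in B k, w x ≤ (1 / 3) ^ k * W := fun k =>
    tail h hw hlc (-θ) (-a) σ hσ hc' k
  have wm : Measurable fun x => ENNReal.ofReal (w x) := hw.meas.ennreal_ofReal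
  -- the pointwise bound
  have hpt : ∀ x, ENNReal.ofReal ((⟪x, θ⟫_ℝ - a) ^ 4 * w x) ≤
      ENNReal.ofReal (16 * σ ^ 4) * ENNReal.ofReal (w x) +
      ∑' k : ℕ, ENNReal.ofReal (1296 * ((k : ℝ) + 1) ^ 4 * σ ^ 4) *
        ((A k).indicator (fun x => ENNReal.ofReal (w x)) x +
        (B k).indicator (fun x => ENNReal.ofReal (w x)) x) := by
    intro x
    rw [ENNReal.ofReal_mul (by positivity)]
    rcases lt_or_ge |⟪x, θ⟫_ℝ - a| (2 * σ) with hx | hx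
    · refine le_trans ?_ le_self_add
      gcongr
      have h1 : |⟪x, θ⟫_ℝ - a| ^ 4 ≤ (2 * σ) ^ 4 := pow_le_pow_left₀ (abs_nonneg _) hx.le 4
      have h4 : |⟪x, θ⟫_ℝ - a| ^ 4 = (⟪x, θ⟫_ℝ - a) ^ 4 := by
        rw [show (4:ℕ) = 2 * 2 by norm_num, pow_mul, sq_abs, pow_mul]
      rw [h4] at h1
      calc (⟪x, θ⟫_ℝ - a) ^ 4 ≤ (2 * σ) ^ 4 := h1
        _ = _ := by ring
    · obtain ⟨k, hk1, hk2⟩ := pt σ _ hσ hx
      refine le_trans ?_ le_add_self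
      refine le_trans ?_ (ENNReal.le_tsum k)
      refine mul_le_mul' (ENNReal.ofReal_le_ofReal hk2) ?_
      rcases le_or_gt 0 (⟪x, θ⟫_ℝ - a) with hs | hs
      · rw [abs_of_nonneg hs] at hk1
        have hxA : x ∈ A k := by
          show a + (2 * σ + 4 * σ * k) ≤ ⟪x, θ⟫_ℝ
          linarith
        rw [indicator_of_mem hxA]
        exact le_self_add
      · rw [abs_of_neg hs] at hk1
        have hxB : x ∈ B k := by
          show -a + (2 * σ + 4 * σ * k) ≤ ⟪x, -θ⟫_ℝ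
          rw [inner_neg_right]
          linarith
        rw [indicator_of_mem hxB]
        exact le_add_self
  refine (lintegral_mono hpt).trans ?_
  rw [lintegral_add_left (wm.const_mul _), lintegral_const_mul _ wm, lintegral_tsum]
  swap
  · intro k
    exact (((wm.indicator (hAm k)).add (wm.indicator (hBm k))).const_mul _).aemeasurable
  have hwint : ∫⁻ x, ENNReal.ofReal (w x) = ENNReal.ofReal W := by
    rw [hWd, ofReal_integral_eq_lintegral_ofReal hw.one (Eventually.of_forall hw.nonneg)]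
  have hset : ∀ S : Set (Eu (Fin n)), MeasurableSet S →
      ∫⁻ x, S.indicator (fun x => ENNReal.ofReal (w x)) x = ENNReal.ofReal (∫ x in S, w x) := by
    intro S hS
    rw [lintegral_indicator hS, ofReal_integral_eq_lintegral_ofReal hw.one.integrableOn
      (Eventually.of_forall hw.nonneg)]
  have hterm : ∀ k : ℕ, ∫⁻ x, ENNReal.ofReal (1296 * ((k : ℝ) + 1) ^ 4 * σ ^ 4) *
        ((A k).indicator (fun x => ENNReal.ofReal (w x)) x +
        (B k).indicator (fun x => ENNReal.ofReal (w x)) x) ≤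
        ENNReal.ofReal (cf k * (2 * σ ^ 4 * W)) := by
    intro k
    have hadd : Measurable fun x => (A k).indicator (fun x => ENNReal.ofReal (w x)) x +
        (B k).indicator (fun x => ENNReal.ofReal (w x)) x :=
      (wm.indicator (hAm k)).add (wm.indicator (hBm k))
    rw [lintegral_const_mul _ hadd,
      lintegral_add_left (wm.indicator (hAm k)), hset _ (hAm k), hset _ (hBm k)]
    calc ENNReal.ofReal (1296 * ((k : ℝ) + 1) ^ 4 * σ ^ 4) *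
        (ENNReal.ofReal (∫ x in A k, w x) + ENNReal.ofReal (∫ x in B k, w x))
        ≤ ENNReal.ofReal (1296 * ((k : ℝ) + 1) ^ 4 * σ ^ 4) *
          (ENNReal.ofReal ((1 / 3) ^ k * W) + ENNReal.ofReal ((1 / 3) ^ k * W)) := by
          gcongr
          · exact tA k
          · exact tB k
      _ = ENNReal.ofReal (cf k * (2 * σ ^ 4 * W)) := by
          rw [← ENNReal.ofReal_add (by positivity) (by positivity),
            ← ENNReal.ofReal_mul (by positivity)]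
          congr 1
          unfold cf
          ring
  have hsum : ∑' k : ℕ, ENNReal.ofReal (cf k * (2 * σ ^ 4 * W)) =
      ENNReal.ofReal ((∑' k, cf k) * (2 * σ ^ 4 * W)) := by
    rw [← ENNReal.ofReal_tsum_of_nonneg (fun k => mul_nonneg (cf_nonneg k) (by positivity))
      (cf_sum.mul_right _), tsum_mul_right]
  rw [hwint]
  refine (add_le_add_right (ENNReal.tsum_le_tsum hterm) _).trans ?_
  rw [hsum, ← ENNReal.ofReal_mul (by positivity), ← ENNReal.ofReal_add (by positivity)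
    (mul_nonneg (tsum_nonneg cf_nonneg) (by positivity))]
  refine ENNReal.ofReal_le_ofReal (le_of_eq ?_)
  ring

theorem m4 (h : S_LEV) : S_M4 := by
  have hcf : 0 ≤ ∑' k, cf k := tsum_nonneg cf_nonneg
  refine ⟨16 + 2 * ∑' k, cf k, by linarith, fun n w hw hlc θ => ?_⟩
  set C : ℝ := 16 + 2 * ∑' k, cf k with hC
  have hC0 : 0 ≤ C := by linarith
  set a := EW w (fun x => ⟪x, θ⟫_ℝ) with ha
  have hW := hw.pos
  have hm := meas_in (n := n) θ
  have hv := VW_shift hw (fun x => ⟪x, θ⟫_ℝ) (int_l hw θ) (int_l2 hw θ) a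
  rw [← ha, sub_self] at hv
  have hv' : EW w (fun x => (⟪x, θ⟫_ℝ - a) ^ 2) = VW w fun x => ⟪x, θ⟫_ℝ := by
    rw [hv]
    ring
  set V := VW w (fun x => ⟪x, θ⟫_ℝ) with hV
  have hV0 : 0 ≤ V := by
    rw [← hv']
    exact div_nonneg (integral_nonneg fun x => mul_nonneg (sq_nonneg _) (hw.nonneg x)) hW.le
  have hVe : ∫ x, (⟪x, θ⟫_ℝ - a) ^ 2 * w x = V * ∫ x, w x := by
    rw [← hv']
    unfold EW
    field_simp
  have hm4 : AEStronglyMeasurable (fun x => (⟪x, θ⟫_ℝ - a) ^ 4 * w x) := by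
    have : Measurable (fun x => (⟪x, θ⟫_ℝ - a) ^ 4 * w x) :=
      ((hm.sub measurable_const).pow_const 4).mul hw.meas
    exact this.aestronglyMeasurable
  have hnn : ∀ x, 0 ≤ (⟪x, θ⟫_ℝ - a) ^ 4 * w x := fun x => mul_nonneg (by positivity) (hw.nonneg x)
  -- the integral
  have key : ∫⁻ x, ENNReal.ofReal ((⟪x, θ⟫_ℝ - a) ^ 4 * w x) ≤
      ENNReal.ofReal (C * V ^ 2 * ∫ x, w x) := by
    rcases hV0.eq_or_lt with h0 | h0
    · -- variance zero
      have h1 : ∫ x, (⟪x, θ⟫_ℝ - a) ^ 2 * w x = 0 := by rw [hVe, ← h0, zero_mul]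
      have h2 := (integral_eq_zero_iff_of_nonneg (fun x => mul_nonneg (sq_nonneg _)
        (hw.nonneg x)) (int_q hw θ a)).1 h1
      have h3 : (fun x => ENNReal.ofReal ((⟪x, θ⟫_ℝ - a) ^ 4 * w x)) =ᵐ[volume] 0 := by
        filter_upwards [h2] with x hx
        have hx' : (⟪x, θ⟫_ℝ - a) ^ 2 * w x = 0 := hx
        have : (⟪x, θ⟫_ℝ - a) ^ 4 * w x = (⟪x, θ⟫_ℝ - a) ^ 2 * ((⟪x, θ⟫_ℝ - a) ^ 2 * w x) := by ring
        rw [this, hx']
        simp
      rw [lintegral_congr_ae h3]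
      simp
    · have hs : 0 < Real.sqrt V := Real.sqrt_pos.2 h0
      have hs2 : Real.sqrt V ^ 2 = V := Real.sq_sqrt hV0
      have := four h hw hlc θ a (Real.sqrt V) hs (by rw [hs2, hVe])
      have e4 : Real.sqrt V ^ 4 = V ^ 2 := by
        rw [show (4:ℕ) = 2 * 2 by norm_num, pow_mul, hs2]
      rw [e4] at this
      exact this
  have hint : Integrable fun x => (⟪x, θ⟫_ℝ - a) ^ 4 * w x := by
    refine ⟨hm4, ?_⟩
    rw [hasFiniteIntegral_iff_ofReal (Eventually.of_forall hnn)]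
    exact lt_of_le_of_lt key ENNReal.ofReal_lt_top
  refine ⟨hint, ?_⟩
  unfold EW
  rw [div_le_iff₀ hW]
  rw [← ofReal_integral_eq_lintegral_ofReal hint (Eventually.of_forall hnn)] at key
  exact (ENNReal.ofReal_le_ofReal_iff (by positivity)).1 key

end Pool.Agent.Y252.PV.M4
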